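import Pool.Agent.J6H51.PK.Bridges

set_option autoImplicit false

/-!
# MP_3c540c_co: the property `𝒫_k` for odd `k`, and topological containment

For odd `k` no graph that contains a subdivision of the Petersen graph has property `𝒫_k`. With
the theorem of Alspach, Goddyn and Zhang this determines the graphs with property `𝒫_k` for every
odd `k`: they are the graphs without a subdivision of the Petersen graph.
-/

namespace Pool.Agent.Results.MP_3c540c_co.OddMultiples

open Pool.Agent.H126R2.CDC (MGraph)
open Pool.Agent.J6H51.PK

/-- The statement of the theorem of Alspach, Goddyn and Zhang: every bridgeless graph that contains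
no subdivision of the Petersen graph has property `𝒫_1`. -/
def AlspachGoddynZhang : Prop :=
  ∀ (V E : Type) [Fintype V] [DecidableEq V] [Fintype E] [DecidableEq E] (G : MGraph V E),
    Bridgeless G → ¬ ContainsSubdivision G petersen → HasP 1 G

/-- 1. If `G` contains a subdivision of the Petersen graph and `k` is odd, then there is an
admissible eulerian weight of `G` with values in `{0, k, 2 k}` without a faithful circuit cover; in
particular `G` does not have property `𝒫_k`.
2. For every `k`, the class of the graphs with property `𝒫_k` is closed under topological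
containment: if `G` has property `𝒫_k` and contains a subdivision of `H`, then `H` has
property `𝒫_k`.
3. Given the theorem of Alspach, Goddyn and Zhang (`AlspachGoddynZhang`), for every odd `k` a
finite graph `G` (with or without bridges) has property `𝒫_k` if and only if it contains no
subdivision of the Petersen graph, if and only if it has property `𝒫_1`. -/
theorem result :
    (∀ (V E : Type) [Fintype V] [DecidableEq V] [Fintype E] [DecidableEq E] (G : MGraph V E)
      (k : ℕ), Odd k → ContainsSubdivision G petersen →
        (∃ w : E → ℕ, (∀ e, w e = 0 ∨ w e = k ∨ w e = 2 * k) ∧ EulerianWeight G w ∧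
          Admissible G w ∧ ¬ FaithfulCover G w) ∧ ¬ HasP k G) ∧
    (∀ (V E U F : Type) [Fintype V] [DecidableEq V] [Fintype E] [DecidableEq E] [Fintype U]
      [DecidableEq U] [Fintype F] [DecidableEq F] (G : MGraph V E) (H : MGraph U F) (k : ℕ),
        ContainsSubdivision G H → HasP k G → HasP k H) ∧
    (AlspachGoddynZhang → ∀ (V E : Type) [Fintype V] [DecidableEq V] [Fintype E] [DecidableEq E]
      (G : MGraph V E) (k : ℕ), Odd k →
        (HasP k G ↔ ¬ ContainsSubdivision G petersen) ∧ (HasP k G ↔ HasP 1 G)) := by
  have h1 : ∀ (V E : Type) [Fintype V] [DecidableEq V] [Fintype E] [DecidableEq E]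
      (G : MGraph V E) (k : ℕ), Odd k → ContainsSubdivision G petersen →
        (∃ w : E → ℕ, (∀ e, w e = 0 ∨ w e = k ∨ w e = 2 * k) ∧ EulerianWeight G w ∧
          Admissible G w ∧ ¬ FaithfulCover G w) ∧ ¬ HasP k G := by
    intro V E _ _ _ _ G k hk hG
    refine ⟨?_, fun h => not_hasP_petersen k hk (hasP_of_subdivision hG k h)⟩
    obtain ⟨w, h1, h2, h3, h4⟩ := transfer hG (fun e => k * pw e) (eulerian_pet k)
      (admissible_pet k) (no_cover k hk)
    refine ⟨w, fun e => ?_, h2, h3, h4⟩
    rcases h1 e with h | ⟨j, h⟩
    · exact Or.inl h
    · right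
      rw [h]
      have h5 : pw j = 1 ∨ pw j = 2 := by
        unfold pw
        split_ifs
        · exact Or.inr rfl
        · exact Or.inl rfl
      rcases h5 with h5 | h5
      · left
        show k * pw j = k
        rw [h5, mul_one]
      · right
        show k * pw j = 2 * k
        rw [h5, mul_comm]
  refine ⟨h1, fun V E U F _ _ _ _ _ _ _ _ G H k h hG => hasP_of_subdivision h k hG, ?_⟩
  intro hA V E _ _ _ _ G k hk
  have h2 : ¬ ContainsSubdivision G petersen → HasP 1 G := by
    intro h
    classical
    exact hasP_up G 1 (hA V _ (del G) (bridgeless_del G) fun h3 => h (contains_up G petersen h3))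
  have h3 : HasP k G → ¬ ContainsSubdivision G petersen := fun h h4 => (h1 V E G k hk h4).2 h
  exact ⟨⟨h3, fun h => hasP_one G (h2 h) k⟩, ⟨fun h => h2 (h3 h), fun h => hasP_one G h k⟩⟩

end Pool.Agent.Results.MP_3c540c_co.OddMultiples
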